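import Pool.Agent.helper51.QS.SpecB

set_option autoImplicit false

namespace Pool.Agent.QS

open Pool.Agent.PC

universe u

theorem RAD (hHTP : HTP_stmt.{u}) : RAD_stmt.{u} := by
  intro R A G _ _ _ _ _ _ _ _ _ _ _ S hS hS1
  have key : ∀ Q ∈ (S.map (algebraMap R A)).minimalPrimes, Q.height = 1 ∧ Q.comap (algebraMap R A) = S := by
    intro Q hQ
    have hQp : Q.IsPrime := hQ.1.1
    have hle : S ≤ Q.comap (algebraMap R A) := Ideal.map_le_iff_le_comap.1 hQ.1.2
    obtain ⟨Q', hQ'p, hQ'le, hQ'h, hQ'c⟩ := (hHTP R A G).2 S Q hS hS1 hQp hle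
    have hle2 : S.map (algebraMap R A) ≤ Q' := Ideal.map_le_iff_le_comap.2 hQ'c.ge
    have h := hQ.2 ⟨hQ'p, hle2⟩ hQ'le
    have e : Q = Q' := le_antisymm h hQ'le
    rw [e]
    exact ⟨hQ'h, hQ'c⟩
  refine ⟨?_, ?_, ?_⟩
  · rw [Ideal.radical_minimalPrimes]
    exact key
  · intro s hs x hx
    rw [← Ideal.sInf_minimalPrimes, Submodule.mem_sInf] at hx ⊢
    intro Q hQ
    have hQp : Ideal.IsPrime Q := hQ.1.1
    rcases hQp.mem_or_mem (hx Q hQ) with h | h
    · exact absurd (show s ∈ S by rw [← (key Q hQ).2]; exact h) hs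
    · exact h
  · intro r hr
    have hint : Algebra.IsIntegral R A := Algebra.IsInvariant.isIntegral R A G
    obtain ⟨Q, -, hQp, hQc⟩ := Ideal.exists_ideal_over_prime_of_isIntegral (S := A) S (⊥ : Ideal A) (by
      rw [← RingHom.ker_eq_comap_bot, (RingHom.injective_iff_ker_eq_bot _).1 (FaithfulSMul.algebraMap_injective R A)]
      exact bot_le)
    have hle : S.map (algebraMap R A) ≤ Q := Ideal.map_le_iff_le_comap.2 hQc.ge
    have h := (Ideal.IsPrime.radical_le_iff hQp).2 hle hr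
    rw [← hQc]
    exact h

end Pool.Agent.QS
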